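import Pool.Agent.W646.PN.Stm

set_option autoImplicit false

/-!
# The degree estimate
-/

namespace Pool.Agent.W303.PN

open Pool.Agent.W646.PN Finset

/-- sums of weights -/
theorem wsum (R T : Finset ℕ) (hT : T ⊆ R) (c : ℝ) :
    ∑ S ∈ R.powerset, (if T ⊆ S then c ^ S.card * (1 - c) ^ (R \ S).card else 0) =
      c ^ T.card := by
  have h1 := Finset.prod_add (fun _ : ℕ => c) (fun i => if i ∈ T then (0 : ℝ) else 1 - c) R
  have h2 : ∏ i ∈ R, (c + if i ∈ T then (0 : ℝ) else 1 - c) = c ^ T.card := by
    have h3 : ∀ i ∈ R, (c + if i ∈ T then (0 : ℝ) else 1 - c) = if i ∈ T then c else 1 := by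
      intro i _
      split_ifs <;> ring
    rw [Finset.prod_congr rfl h3, Finset.prod_ite_mem, Finset.inter_eq_right.2 hT,
      Finset.prod_const]
  rw [← h2, h1]
  refine Finset.sum_congr rfl fun S hS => ?_
  rw [Finset.prod_const]
  split_ifs with h
  · congr 1
    rw [← Finset.prod_const]
    refine (Finset.prod_congr rfl fun i hi => ?_).symm
    rw [Finset.mem_sdiff] at hi
    rw [if_neg fun h4 => hi.2 (h h4)]
  · obtain ⟨i, hiT, hiS⟩ := Finset.not_subset.1 h
    have h4 : ∏ j ∈ R \ S, (if j ∈ T then (0 : ℝ) else 1 - c) = 0 :=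
      Finset.prod_eq_zero (Finset.mem_sdiff.2 ⟨hT hiT, hiS⟩) (if_pos hiT)
    rw [h4, mul_zero]

/-- the averages form a polynomial -/
theorem exists_poly {k : ℕ} {X : Type} [AddCommGroup X] [Module ℝ X]
    (φ : MultilinearMap ℝ (fun _ : Fin k => X) ℝ) (x : X) (u : ℕ → X) (N : ℕ) (M : ℝ)
    (hM : ∀ S ⊆ Finset.range N, |φ (fun _ => x + ∑ l ∈ S, u l)| ≤ M) :
    ∃ P : Polynomial ℝ, P.natDegree ≤ k ∧ (∀ c : ℝ, 0 ≤ c → c ≤ 1 → |P.eval c| ≤ M) ∧
      P.coeff 1 = ∑ l ∈ Finset.range N, (φ (fun _ => x + u l) - φ (fun _ => x)) := by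
  classical
  set g : Option ℕ → X := fun o => o.elim x u with hg
  set Om : Finset (Fin k → Option ℕ) := Fintype.piFinset fun _ => insertNone (range N) with hOm
  set T : (Fin k → Option ℕ) → Finset ℕ := fun r => univ.biUnion fun i => (r i).toFinset with hT
  set co : (Fin k → Option ℕ) → ℝ := fun r => φ (fun i => g (r i)) with hco
  have hTmem : ∀ r l, l ∈ T r ↔ ∃ i, r i = some l := by
    intro r l
    simp [hT]
  have hTcard : ∀ r, (T r).card ≤ k := by
    intro r
    have h1 : (T r).card ≤ (univ : Finset (Fin k)).card * 1 := by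
      refine Finset.card_biUnion_le_card_mul _ _ _ fun i _ => ?_
      cases r i <;> simp
    simpa using h1
  have hsub : ∀ (r : Fin k → Option ℕ) (S : Finset ℕ),
      (∀ i, r i ∈ insertNone S) ↔ T r ⊆ S := by
    intro r S
    constructor
    · intro h l hl
      obtain ⟨i, hi⟩ := (hTmem r l).1 hl
      exact Finset.mem_insertNone.1 (h i) l (by rw [hi]; rfl)
    · intro h i
      rw [Finset.mem_insertNone]
      intro a ha
      exact h ((hTmem r a).2 ⟨i, ha⟩)
  have hF : ∀ S ⊆ range N, φ (fun _ => x + ∑ l ∈ S, u l) =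
      ∑ r ∈ Om, if T r ⊆ S then co r else 0 := by
    intro S hS
    have h1 : (fun _ : Fin k => x + ∑ l ∈ S, u l) = fun _ => ∑ o ∈ insertNone S, g o := by
      funext _
      rw [Finset.sum_insertNone]
      rfl
    rw [h1, MultilinearMap.map_sum_finset, ← Finset.sum_filter]
    refine Finset.sum_congr ?_ fun _ _ => rfl
    ext r
    rw [Fintype.mem_piFinset, mem_filter, hOm, Fintype.mem_piFinset, hsub, hsub]
    exact ⟨fun h => ⟨h.trans hS, h⟩, fun h => h.2⟩
  have hTN : ∀ r ∈ Om, T r ⊆ range N := by
    intro r hr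
    rw [hOm, Fintype.mem_piFinset, hsub] at hr
    exact hr
  refine ⟨∑ r ∈ Om, Polynomial.monomial (T r).card (co r), ?_, ?_, ?_⟩
  · exact Polynomial.natDegree_sum_le_of_forall_le _ _ fun r _ =>
      (Polynomial.natDegree_monomial_le _).trans (hTcard r)
  · intro c hc0 hc1
    have h1 : (∑ r ∈ Om, Polynomial.monomial (T r).card (co r)).eval c =
        ∑ S ∈ (range N).powerset, c ^ S.card * (1 - c) ^ (range N \ S).card *
          φ (fun _ => x + ∑ l ∈ S, u l) := by
      rw [Polynomial.eval_finset_sum]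
      have h2 : ∀ S ∈ (range N).powerset, c ^ S.card * (1 - c) ^ (range N \ S).card *
          φ (fun _ => x + ∑ l ∈ S, u l) = ∑ r ∈ Om, co r *
            (if T r ⊆ S then c ^ S.card * (1 - c) ^ (range N \ S).card else 0) := by
        intro S hS
        rw [hF S (Finset.mem_powerset.1 hS), Finset.mul_sum]
        refine Finset.sum_congr rfl fun r _ => ?_
        split_ifs <;> ring
      rw [Finset.sum_congr rfl h2, Finset.sum_comm]
      refine Finset.sum_congr rfl fun r hr => ?_
      rw [← Finset.mul_sum, wsum (range N) (T r) (hTN r hr) c, Polynomial.eval_monomial]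
    rw [h1]
    have h0 := wsum (range N) ∅ (Finset.empty_subset _) c
    simp only [Finset.empty_subset, if_true, Finset.card_empty, pow_zero] at h0
    calc |∑ S ∈ (range N).powerset, c ^ S.card * (1 - c) ^ (range N \ S).card *
          φ (fun _ => x + ∑ l ∈ S, u l)|
        ≤ ∑ S ∈ (range N).powerset, |c ^ S.card * (1 - c) ^ (range N \ S).card *
          φ (fun _ => x + ∑ l ∈ S, u l)| := Finset.abs_sum_le_sum_abs _ _
      _ ≤ ∑ S ∈ (range N).powerset, c ^ S.card * (1 - c) ^ (range N \ S).card * M := by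
          refine Finset.sum_le_sum fun S hS => ?_
          have h3 : 0 ≤ c ^ S.card * (1 - c) ^ (range N \ S).card :=
            mul_nonneg (pow_nonneg hc0 _) (pow_nonneg (by linarith) _)
          rw [abs_mul, abs_of_nonneg h3]
          exact mul_le_mul_of_nonneg_left (hM S (Finset.mem_powerset.1 hS)) h3
      _ = M := by rw [← Finset.sum_mul, h0, one_mul]
  · rw [Polynomial.finset_sum_coeff]
    have h1 : ∀ l ∈ range N, φ (fun _ => x + u l) - φ (fun _ => x) =
        ∑ r ∈ Om, ((if T r ⊆ {l} then co r else 0) - (if T r ⊆ ∅ then co r else 0)) := by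
      intro l hl
      have h2 := hF {l} (Finset.singleton_subset_iff.2 hl)
      have h3 := hF ∅ (Finset.empty_subset _)
      rw [Finset.sum_singleton] at h2
      rw [Finset.sum_empty, add_zero] at h3
      rw [h2, h3, ← Finset.sum_sub_distrib]
    rw [Finset.sum_congr rfl h1, Finset.sum_comm]
    refine Finset.sum_congr rfl fun r hr => ?_
    rw [Polynomial.coeff_monomial]
    have hr' := hTN r hr
    by_cases h0 : T r = ∅
    · rw [h0]
      simp
    · have h2 : ¬ T r ⊆ ∅ := fun h => h0 (Finset.subset_empty.1 h)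
      simp only [if_neg h2, sub_zero]
      by_cases h3 : (T r).card = 1
      · obtain ⟨a, ha⟩ := Finset.card_eq_one.1 h3
        rw [ha] at hr'
        rw [ha, Finset.card_singleton, if_pos rfl]
        simp only [Finset.singleton_subset_singleton]
        rw [Finset.sum_ite_eq, if_pos (Finset.singleton_subset_iff.1 hr')]
      · rw [if_neg h3]
        refine (Finset.sum_eq_zero fun l _ => if_neg fun h => ?_).symm
        rcases Finset.subset_singleton_iff.1 h with h | h
        · exact h0 h
        · exact h3 (by rw [h, Finset.card_singleton])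

/-- the degree estimate -/
theorem deg : S_DEG := by
  intro k
  set v : ℕ → ℝ := fun i => i / (k + 1) with hv
  have hk : (0 : ℝ) < k + 1 := by positivity
  have hvi : Set.InjOn v (range (k + 1)) := by
    intro i _ j _ hij
    simp only [hv] at hij
    rw [div_left_inj' hk.ne'] at hij
    exact_mod_cast hij
  refine ⟨∑ i ∈ range (k + 1), |(Lagrange.basis (range (k + 1)) v i).coeff 1|,
    Finset.sum_nonneg fun i _ => abs_nonneg _, ?_⟩
  intro X _ _ φ x u N M hM
  obtain ⟨P, hdeg, hev, hco⟩ := exists_poly φ x u N M hM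
  rw [← hco]
  have h1 : P = Lagrange.interpolate (range (k + 1)) v fun i => P.eval (v i) := by
    refine Lagrange.eq_interpolate hvi ?_
    rw [Finset.card_range]
    exact lt_of_le_of_lt Polynomial.degree_le_natDegree (by exact_mod_cast Nat.lt_succ_of_le hdeg)
  have h2 : P.coeff 1 = ∑ i ∈ range (k + 1), P.eval (v i) *
      (Lagrange.basis (range (k + 1)) v i).coeff 1 := by
    conv_lhs => rw [h1]
    rw [Lagrange.interpolate_apply, Polynomial.finset_sum_coeff]
    refine Finset.sum_congr rfl fun i _ => ?_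
    rw [Polynomial.coeff_C_mul]
  have h3 : |P.coeff 1| ≤
      (∑ i ∈ range (k + 1), |(Lagrange.basis (range (k + 1)) v i).coeff 1|) * M := by
    rw [h2, Finset.sum_mul]
    refine (Finset.abs_sum_le_sum_abs _ _).trans (Finset.sum_le_sum fun i hi => ?_)
    rw [abs_mul, mul_comm]
    refine mul_le_mul_of_nonneg_left (hev _ ?_ ?_) (abs_nonneg _)
    · simp only [hv]
      positivity
    · simp only [hv]
      rw [div_le_one hk]
      have : i ≤ k := Nat.lt_succ_iff.1 (Finset.mem_range.1 hi)
      have : (i : ℝ) ≤ k := by exact_mod_cast this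
      linarith
  have h4 := neg_abs_le (P.coeff 1)
  linarith

end Pool.Agent.W303.PN
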